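import Pool.Agent.H12.KG.Targets

/-!
# Project KEW, block G, row P1X (helper6)
-/

set_option autoImplicit false

namespace Pool.Agent.H6.KG

open AlgebraicGeometry CategoryTheory Pool.Agent.H12.KP Pool.Agent.H12.KG

universe u

/-- Integrality is transported by an isomorphism which respects the images. -/
theorem integral_lift {O₁ O₂ K₁ K₂ : Type*} [CommRing O₁] [CommRing O₂] [Field K₁] [Field K₂]
    (φ₁ : O₁ →+* K₁) (φ₂ : O₂ →+* K₂) (k : K₁ →+* K₂)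
    (hlift : ∀ t : O₂, ∃ s : O₁, k (φ₁ s) = φ₂ t) (b : K₁) (hb : φ₂.IsIntegralElem (k b)) :
    φ₁.IsIntegralElem b := by
  obtain ⟨p, hp, he⟩ := hb
  choose s hs using hlift
  refine ⟨Polynomial.X ^ p.natDegree + ∑ j : Fin p.natDegree,
    Polynomial.C (s (p.coeff j)) * Polynomial.X ^ (j : ℕ), ?_, ?_⟩
  · exact Polynomial.monic_X_pow_add (Polynomial.degree_sum_fin_lt _)
  · apply k.injective
    rw [Polynomial.eval₂_add, Polynomial.eval₂_X_pow, Polynomial.eval₂_finsetSum, map_add,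
      map_sum, map_zero, map_pow]
    have h1 := hp.as_sum
    rw [h1, Polynomial.eval₂_add, Polynomial.eval₂_X_pow, Polynomial.eval₂_finsetSum,
      Finset.sum_range] at he
    rw [← he]
    congr 1
    refine Finset.sum_congr rfl fun j _ => ?_
    rw [Polynomial.eval₂_mul, Polynomial.eval₂_C, Polynomial.eval₂_X_pow, map_mul, map_pow, hs,
      Polynomial.eval₂_mul, Polynomial.eval₂_C, Polynomial.eval₂_X_pow]

theorem pf_P1X (hP : S_P1P.{u}) (hI : S_IMM.{u}) (hU : S_UNI.{u}) : S_P1X.{u} := by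
  classical
  intro A S _ _ _ _ _ _ _ 𝒮 _ hfg hadj X i hi π hπ p hp ε e a r hpe hε ha hea w x hw hx hxc
    h hh hloc
  obtain ⟨h1, h2, h3, h4, h5, h6⟩ := hI A X (Proj 𝒮) i (projStr 𝒮) hi
  obtain ⟨k, hk, hkA, hks⟩ := h6 w
  have hw' : HorSurf (projStr 𝒮) π (i w) := by
    refine ⟨fun h => hw.hor ((h5 π w).2 h), ?_⟩
    intro y' x' e1 e2 e3 e4
    obtain ⟨y, rfl⟩ := h2 w y' e1
    obtain ⟨x₁, rfl⟩ := h2 w x' (e1.trans e2)
    refine (h4 x₁).1 (hw.dim y x₁ ((h1 w y).2 e1) ((h1 y x₁).2 e2) ?_ ((h5 π y).2 e4))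
    rintro rfl
    exact e3 rfl
  obtain ⟨h₀, rfl⟩ := hk.2 h
  have hh₀ : h₀ ≠ 0 := by
    rintro rfl
    exact hh (map_zero k)
  have hx' : i w ⤳ i x := (h1 w x).1 hx
  -- units of the stalks
  have hunit : ∀ (z : X) (hz : w ⤳ z) (hz' : i w ⤳ i z) (v₀ : ((Proj 𝒮).presheaf.stalk (i z))ˣ),
      ∃ v : (X.presheaf.stalk z)ˣ, rho hz (v : X.presheaf.stalk z) =
        k (rho hz' (v₀ : (Proj 𝒮).presheaf.stalk (i z))) := by
    intro z hz hz' v₀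
    have e0 : rho hz' (v₀ : (Proj 𝒮).presheaf.stalk (i z)) *
        rho hz' ((v₀⁻¹ : ((Proj 𝒮).presheaf.stalk (i z))ˣ) : (Proj 𝒮).presheaf.stalk (i z)) = 1 := by
      rw [← map_mul, Units.mul_inv, map_one]
    have e1 : rho hz' (v₀ : (Proj 𝒮).presheaf.stalk (i z)) ≠ 0 := left_ne_zero_of_mul_eq_one e0
    refine (hU X w z hz _).2 ⟨(map_ne_zero k).2 e1, ?_, ?_⟩
    · obtain ⟨t, ht⟩ := (hks z hz hz').1 (v₀ : (Proj 𝒮).presheaf.stalk (i z))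
      exact ⟨t, ht.symm⟩
    · obtain ⟨t, ht⟩ := (hks z hz hz').1
        ((v₀⁻¹ : ((Proj 𝒮).presheaf.stalk (i z))ˣ) : (Proj 𝒮).presheaf.stalk (i z))
      refine ⟨t, ?_⟩
      rw [← ht, ← map_inv₀, eq_inv_of_mul_eq_one_right e0]
  obtain ⟨ξ₀, hξ₀, ⟨u₀, hu₀, v₀, hv₀⟩, hall⟩ := hP A S 𝒮 hfg hadj π hπ p hp ε e a r hpe hε ha hea
    (i w) (i x) hw' hx' ((h4 x).1 hxc) h₀ hh₀ (by
      intro y' hy' e1 hg
      obtain ⟨y, rfl⟩ := h2 w y' hy'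
      have hy : w ⤳ y := (h1 w y).2 hy'
      have hg' : GenSp (i ≫ projStr 𝒮) π w y := by
        refine ⟨hy, (h5 π y).2 hg.2.1, fun y₁ e2 e3 e4 => ?_⟩
        exact h3 _ _ (hg.2.2 (i y₁) ((h1 w y₁).1 e2) ((h1 y₁ y).1 e3) ((h5 π y₁).1 e4))
      obtain ⟨u, b, hu, hb, hub⟩ := hloc y hy ((h1 y x).2 e1) hg'
      obtain ⟨u₁, rfl⟩ := hk.2 u
      obtain ⟨b₁, rfl⟩ := hk.2 b
      refine ⟨u₁, b₁, ?_, ?_, ?_⟩
      · rintro rfl
        exact hu (map_zero k)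
      · exact integral_lift (rho hy') (rho hy) k (fun t => (hks y hy hy').2 t) b₁ hb
      · apply hk.1
        rw [hub, map_mul, map_pow, map_add, map_one, map_mul, map_pow, hkA])
  refine ⟨k ξ₀, (map_ne_zero k).2 hξ₀, ⟨k u₀, (map_ne_zero k).2 hu₀, ?_⟩, ?_⟩
  · obtain ⟨v, hv⟩ := hunit x hx hx' v₀
    refine ⟨v, ?_⟩
    rw [hv, hv₀, map_mul, map_mul, map_pow]
  · intro x' hwx' hx'c hne
    have hwx'' : i w ⤳ i x' := (h1 w x').1 hwx'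
    obtain ⟨u₁, hu₁, v₁, hv₁⟩ := hall (i x') hwx'' ((h4 x').1 hx'c) (fun e => hne (h3 _ _ e))
    obtain ⟨v, hv⟩ := hunit x' hwx' hwx'' v₁
    refine ⟨k u₁, (map_ne_zero k).2 hu₁, v, ?_⟩
    rw [hv, hv₁, map_mul, map_pow]

end Pool.Agent.H6.KG
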