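import Pool.Agent.H12.KG.Targets

/-!
# Project KEW, block G, row WA1X (helper6)
-/

set_option autoImplicit false

namespace Pool.Agent.H6.KG

open AlgebraicGeometry CategoryTheory Pool.Agent.H12.KP Pool.Agent.H12.KG

universe u

theorem pf_WA1X (hP : S_WA1P.{u}) (hI : S_IMM.{u}) : S_WA1X.{u} := by
  classical
  intro A S _ _ _ _ _ 𝒮 _ hfg hadj X i hi π hπ n hn w hw H hH
  obtain ⟨h1, h2, h3, h4, h5, h6⟩ := hI A X (Proj 𝒮) i (projStr 𝒮) hi
  obtain ⟨k, hk, hkA, hks⟩ := h6 w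
  have hw' : ¬ Sp (projStr 𝒮) π (i w) := fun h => hw ((h5 π w).2 h)
  have hki : ∀ z, k (Function.surjInv hk.2 z) = z := Function.surjInv_eq hk.2
  let H' : Proj 𝒮 → (Proj 𝒮).residueField (i w) := fun y' =>
    if h : ∃ y : X, i y = y' then Function.surjInv hk.2 (H h.choose) else 1
  have hH' : ∀ y', H' y' ≠ 0 := by
    intro y'
    by_cases h : ∃ y : X, i y = y'
    · have e1 : H' y' = Function.surjInv hk.2 (H h.choose) := dif_pos h
      rw [e1]
      intro h0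
      have e2 := hki (H h.choose)
      rw [h0, map_zero] at e2
      exact hH _ e2.symm
    · have e1 : H' y' = 1 := dif_neg h
      rw [e1]
      exact one_ne_zero
  have hHe : ∀ y : X, k (H' (i y)) = H y := by
    intro y
    have h : ∃ y₁ : X, i y₁ = i y := ⟨y, rfl⟩
    have e1 : H' (i y) = Function.surjInv hk.2 (H h.choose) := dif_pos h
    rw [e1, hki, h3 _ _ h.choose_spec]
  obtain ⟨h', hh', hall⟩ := hP A S 𝒮 hfg hadj π hπ n hn (i w) hw' H' hH'
  refine ⟨k h', (map_ne_zero k).2 hh', fun y hy hg => ?_⟩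
  have hy' : i w ⤳ i y := (h1 w y).1 hy
  have hg' : GenSp (projStr 𝒮) π (i w) (i y) := by
    refine ⟨hy', (h5 π y).1 hg.2.1, fun y' e1 e2 e3 => ?_⟩
    obtain ⟨y₁, rfl⟩ := h2 w y' e1
    rw [hg.2.2 y₁ ((h1 w y₁).2 e1) ((h1 y₁ y).2 e2) ((h5 π y₁).2 e3)]
  obtain ⟨s, hs⟩ := hall (i y) hy' hg'
  obtain ⟨t, ht⟩ := (hks y hy hy').1 s
  refine ⟨t, ?_⟩
  rw [hs, map_mul, map_add, map_one, map_mul, map_pow, hkA, hHe, ht]

end Pool.Agent.H6.KG
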